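import Pool.Agent.Lib.MP_688fd0_co.SQ5.H23.C2All
import Pool.Agent.Lib.MP_688fd0_co.SQ6.Top
import Pool.Agent.Lib.MP_688fd0_co.SQ2.H41.Gne
import Pool.Agent.Lib.MP_688fd0_co.SQ4.H23.Two

/-!
Row CASE1 of `ftt_modules` (helper74, plan of helper85): if the triple `a, t, b` generates the group no threads are needed,
the listing is one of the triple itself (`TwoHS` if two of the `P`-heights are equal, otherwise `tri_of`).
-/

set_option autoImplicit false

namespace Pool.Agent.Lib.MP_688fd0_co.SQD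

open Pool.Agent.Lib.MP_688fd0_co.OSF Pool.Agent.Lib.MP_688fd0_co.SQ3
open Subgroup

/-- Involutions act by `± 1` on every normal subgroup of prime order; so does the group which they generate. -/
theorem pm_of_inv {G : Type*} [Group G] {p : ℕ} (hpp : p.Prime) {y : G} (hy : orderOf y = p)
    (hnorm : (zpowers y).Normal) {A : Set G} (hinv : ∀ a ∈ A, a * a = 1) (hgen : closure A = ⊤) (g : G) :
    g * y * g⁻¹ = y ∨ g * y * g⁻¹ = y⁻¹ := by
  have hlet : ∀ a ∈ A, a * y * a⁻¹ = y ∨ a * y * a⁻¹ = y⁻¹ := by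
    intro a ha
    obtain ⟨i, hi⟩ := mem_zpowers_iff.1 (hnorm.conj_mem y (mem_zpowers y) a)
    have ha2 := hinv a ha
    have hai : a⁻¹ = a := inv_eq_of_mul_eq_one_left ha2
    have h1 : y = y ^ (i * i) := by
      have h2 : a * (a * y * a⁻¹) * a⁻¹ = y := by
        rw [hai, ← mul_assoc, ← mul_assoc, ha2, one_mul, mul_assoc, ha2, mul_one]
      rw [← hi] at h2
      have h3 : a * y ^ i * a⁻¹ = (a * y * a⁻¹) ^ i := by
        rw [conj_zpow]
      rw [h3, ← hi, ← zpow_mul] at h2
      exact h2.symm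
    have h4 : y ^ (i * i - 1) = 1 := by
      rw [zpow_sub, zpow_one, ← h1, mul_inv_cancel]
    have h5 : (p : ℤ) ∣ (i - 1) * (i + 1) := by
      have h6 := orderOf_dvd_iff_zpow_eq_one.2 h4
      rw [hy] at h6
      have h7 : i * i - 1 = (i - 1) * (i + 1) := by ring
      rwa [h7] at h6
    rcases (Nat.prime_iff_prime_int.1 hpp).dvd_or_dvd h5 with h6 | h6
    · left
      have h7 : y ^ (i - 1) = 1 := orderOf_dvd_iff_zpow_eq_one.1 (by rw [hy]; exact h6)
      rw [← hi, ← mul_inv_eq_one, ← zpow_sub_one]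
      exact h7
    · right
      have h7 : y ^ (i + 1) = 1 := orderOf_dvd_iff_zpow_eq_one.1 (by rw [hy]; exact h6)
      rw [← hi, eq_inv_iff_mul_eq_one, ← zpow_add_one]
      exact h7
  have hg : g ∈ closure A := by rw [hgen]; exact mem_top g
  induction hg using closure_induction with
  | mem a ha => exact hlet a ha
  | one => left; simp
  | mul x z _ _ hx hz =>
    have h1 : x * z * y * (x * z)⁻¹ = x * (z * y * z⁻¹) * x⁻¹ := by group
    rw [h1]
    rcases hz with h2 | h2
    · rw [h2]; exact hx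
    · rw [h2]
      have h3 : x * y⁻¹ * x⁻¹ = (x * y * x⁻¹)⁻¹ := by group
      rw [h3]
      rcases hx with h4 | h4
      · rw [h4]; right; rfl
      · rw [h4, inv_inv]; left; rfl
  | inv x _ hx =>
    rcases hx with h1 | h1
    · left
      rw [mul_inv_eq_iff_eq_mul] at h1
      rw [mul_assoc, inv_inv, ← h1, ← mul_assoc, inv_mul_cancel, one_mul]
    · right
      have h2 : y = x⁻¹ * y⁻¹ * x := by
        rw [← h1]; group
      rw [inv_inv]
      have h3 : y⁻¹ = (x⁻¹ * y⁻¹ * x)⁻¹ := congrArg (·⁻¹) h2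
      rw [h3]
      group

/-- CASE1: the triple generates the group. -/
theorem case1 (hT : SQ6.TwoHS) (hN : Near3S) (hF : Far3S) : ∀ c₁ : ℕ, ∃ c₀ : ℕ, ∀ (G : Type) [Group G] [Finite G]
    (N C : Subgroup G) (eps : G →* ℤˣ) (k P : ℕ) (A : Set G) (a t b : G),
    Inv N C eps k P A c₁ a t b → Marg N k c₀ → closure ({a, t, b} : Set G) = ⊤ →
    2 ^ ((k + (Nat.card G).primeFactorsList.length) ^ c₀) ≤ P → Lst A := by
  intro c₁
  obtain ⟨c₂, h₂⟩ := hT
  obtain ⟨c₃, h₃⟩ := tri_of hN hF c₁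
  refine ⟨max c₂ c₃, ?_⟩
  intro G _ _ N C eps k P A a t b h hMg hgen hP
  have hk : 0 < k := by
    rw [← h.gn.idx]
    exact Nat.pos_of_ne_zero N.index_ne_zero_of_finite
  have hm : ∀ c ≤ max c₂ c₃, 2 ^ ((k + (Nat.card G).primeFactorsList.length) ^ c) ≤ P := fun c hc =>
    (Nat.pow_le_pow_right (by norm_num) (Nat.pow_le_pow_right (by omega) hc)).trans hP
  have hsub : ({a, t, b} : Set G) ⊆ A := by
    rintro s (rfl | rfl | rfl)
    exacts [h.aA, h.tA, h.bA]
  refine SQ4.lst_mono' hsub ?_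
  have hinv : ∀ s ∈ ({a, t, b} : Set G), s * s = 1 := fun s hs => h.inv s (hsub hs)
  have hii : ∀ s ∈ ({a, t, b} : Set G), s⁻¹ = s := fun s hs => inv_eq_of_mul_eq_one_left (hinv s hs)
  have hneg : ∀ s ∈ ({a, t, b} : Set G), eps s = -1 := fun s hs => h.neg s (hsub hs)
  have ha : a ∈ ({a, t, b} : Set G) := Or.inl rfl
  have ht : t ∈ ({a, t, b} : Set G) := Or.inr (Or.inl rfl)
  have hb : b ∈ ({a, t, b} : Set G) := Or.inr (Or.inr rfl)
  have hone : ∀ s : G, ¬ P ∣ orderOf (s * s⁻¹) := fun s h1 => by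
    rw [mul_inv_cancel, orderOf_one] at h1
    exact h.gn.prime.one_lt.ne' (Nat.dvd_one.1 h1)
  have hsym : ∀ x ∈ ({a, t, b} : Set G), x⁻¹ ∈ ({a, t, b} : Set G) := fun x hx => by rw [hii x hx]; exact hx
  by_cases h23 : P ∣ orderOf (t * b)
  swap
  · refine h₂ G N C eps k P _ h.gn hsym hgen hneg ⟨a, ha, b, hb, ?_⟩ (hm _ (le_max_left _ _))
    rintro s (rfl | rfl | rfl)
    · exact Or.inl (hone _)
    · right
      rw [hii b hb]
      exact h23
    · exact Or.inr (hone _)
  by_cases h13 : P ∣ orderOf (a * b)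
  swap
  · refine h₂ G N C eps k P _ h.gn hsym hgen hneg ⟨t, ht, b, hb, ?_⟩ (hm _ (le_max_left _ _))
    rintro s (rfl | rfl | rfl)
    · right
      rw [hii b hb]
      exact h13
    · exact Or.inl (hone _)
    · exact Or.inr (hone _)
  refine h₃ G N C eps k P a t b ?_ (hMg.mono (le_max_right _ _)) (hm _ (le_max_right _ _))
  have hat1 : ∀ s ∈ ({a, t, b} : Set G), eps (s * t) = 1 := fun s hs => by
    rw [map_mul, hneg s hs, hneg t ht]; simp
  exact
    { gn := h.gn
      aa := hinv a ha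
      tt := hinv t ht
      bb := hinv b hb
      ea := hneg a ha
      et := hneg t ht
      eb := hneg b hb
      gen := hgen
      hat := h.hat
      htb := h23
      hab := h13
      nab := fun h1 => h.nab (h1 _ _ (hat1 a ha) (hat1 b hb))
      small := fun p hp => h.small p hp fun y hy hyp g => by
        have hpp := Nat.prime_of_mem_primeFactors hp
        exact pm_of_inv hpp hyp (SQ2.H41.zpowers_normal N h.gn.Nn h.gn.Nc (h.gn.CN hy)) hinv hgen g }

end Pool.Agent.Lib.MP_688fd0_co.SQD
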